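import Mathlib
import Pool.Agent.Helper35.PI2.St

namespace Helper15.PI2

open Helper35.PI Helper35.PI2
open scoped ContDiff Manifold Topology ENNReal BigOperators
open MeasureTheory Set Filter

/-- norm of a combination of the orthonormal vectors `L (ee k)` -/
private lemma norm_comb {n N : ℕ} (L : EE n →ₗᵢ[ℝ] EE N) (c : Fin n → ℝ) :
    ‖∑ k, c k • L (ee k)‖ ^ 2 = ∑ k, c k ^ 2 := by
  have h1 : ∑ k, c k • L (ee k) = L (∑ k, c k • ee k) := by
    rw [map_sum]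
    refine Finset.sum_congr rfl fun k _ => ?_
    rw [map_smul]
  rw [h1, L.norm_map]
  have h2 : ∀ j, (∑ k, c k • (ee k : EE n)) j = c j := by
    intro j
    simp only [ee, WithLp.ofLp_sum, WithLp.ofLp_smul, Finset.sum_apply, Pi.smul_apply,
      EuclideanSpace.single_apply, smul_eq_mul, mul_ite, mul_one, mul_zero]
    simp
  rw [EuclideanSpace.real_norm_sq_eq]
  exact Finset.sum_congr rfl fun j _ => by rw [h2 j]

/-- slices in time of a differentiable function -/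
private lemma slice_t {n : ℕ} {V : Type} [NormedAddCommGroup V] [NormedSpace ℝ V]
    (φ : EE n × ℝ → V) (y : EE n) (t : ℝ) (h : DifferentiableAt ℝ φ (y, t)) :
    HasDerivAt (fun s : ℝ => φ (y, s)) (jt φ (y, t)) t := by
  have h2 : HasFDerivAt φ (fderiv ℝ φ (y, t)) (y, t) := h.hasFDerivAt
  have h3 : HasDerivAt (fun τ : ℝ => ((y, τ) : EE n × ℝ)) ((0 : EE n), (1 : ℝ)) t :=
    (hasDerivAt_const t y).prodMk (hasDerivAt_id t)
  exact HasFDerivAt.comp_hasDerivAt (f := fun τ : ℝ => ((y, τ) : EE n × ℝ)) t h2 h3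

/-- slices in space of a differentiable function -/
private lemma slice_x {n : ℕ} {V : Type} [NormedAddCommGroup V] [NormedSpace ℝ V]
    (φ : EE n × ℝ → V) (y : EE n) (t : ℝ) (h : DifferentiableAt ℝ φ (y, t)) :
    HasFDerivAt (fun x : EE n => φ (x, t))
      ((fderiv ℝ φ (y, t)).comp (ContinuousLinearMap.inl ℝ (EE n) ℝ)) y := by
  have h2 : HasFDerivAt φ (fderiv ℝ φ (y, t)) (y, t) := h.hasFDerivAt
  have h3 : HasFDerivAt (fun x : EE n => ((x, t) : EE n × ℝ))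
      (ContinuousLinearMap.inl ℝ (EE n) ℝ) y := hasFDerivAt_prodMk_left y t
  exact HasFDerivAt.comp (f := fun x : EE n => ((x, t) : EE n × ℝ)) y h2 h3

/-- the graph is an immersion at its centre -/
private lemma LI_grf {n N : ℕ} {x₀ : EE N} {L : EE n →ₗᵢ[ℝ] EE N} {u : EE n × ℝ → EE N}
    {t₀ : ℝ} (hG : GraphSol x₀ L u t₀) : LI (grf x₀ L u t₀) 0 := by
  have hd : ∀ i, dv1 (grf x₀ L u t₀) 0 i = L (ee i) := by
    intro i
    have h1 : HasFDerivAt (fun x : EE n => u (x, t₀))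
        ((fderiv ℝ u (0, t₀)).comp (ContinuousLinearMap.inl ℝ (EE n) ℝ)) 0 :=
      slice_x u 0 t₀ (hG.smooth.differentiableAt (by simp))
    have h2 : HasFDerivAt (fun x : EE n => x₀ + L x) L.toContinuousLinearMap 0 := by
      have h2' : HasFDerivAt (fun x : EE n => L.toContinuousLinearMap x)
          L.toContinuousLinearMap 0 := L.toContinuousLinearMap.hasFDerivAt
      exact h2'.const_add x₀
    have h3 := h2.add h1
    have h4 : fderiv ℝ (grf x₀ L u t₀) 0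
        = L.toContinuousLinearMap
          + (fderiv ℝ u (0, t₀)).comp (ContinuousLinearMap.inl ℝ (EE n) ℝ) := h3.fderiv
    have h5 : fderiv ℝ u (0, t₀) (ee i, 0) = 0 := hG.du0 i
    unfold dv1
    rw [h4]
    simp [h5]
  unfold LI
  have h6 : (fun i : Fin n => dv1 (grf x₀ L u t₀) 0 i) = fun i => L (ee i) := funext hd
  rw [h6]
  have h7 : LinearIndependent ℝ (fun i : Fin n => (ee i : EE n)) := by
    have h8 : (fun i : Fin n => (ee i : EE n)) = (EuclideanSpace.basisFun (Fin n) ℝ) := by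
      funext i
      simp [ee]
    rw [h8]
    exact (EuclideanSpace.basisFun (Fin n) ℝ).orthonormal.linearIndependent
  exact h7.map' L.toLinearMap (LinearMap.ker_eq_bot.2 L.injective)

theorem hMG (hGV : StGV) (hMA : StMA) (hMT : StMT) (hIB : StIB) (hC1 : StC1) (hC2 : StC2)
    (hC3 : StC3) (hSM : StSM) (hI2 : StI2) (hI3 : StI3) (hG1 : StG1) (hG7 : StG7)
    (hG8 : StG8) : StMG := by
  intro n N M _ _ _ F hF q t μ ht
  set e := chartAt (EE n) q with he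
  set f : EE n × ℝ → EE N := fun z => F (e.symm z.1) z.2 with hf
  set y₀ : EE n := e q with hy₀
  have hsm := hI2 n N M F hF q
  have hopen : IsOpen (e.target ×ˢ Iio (0 : ℝ)) := e.open_target.prod isOpen_Iio
  have hy₀t : y₀ ∈ e.target := e.map_source (mem_chart_source (EE n) q)
  have hmem : (y₀, t) ∈ e.target ×ˢ Iio (0 : ℝ) := ⟨hy₀t, ht⟩
  have hfat : ∀ z ∈ e.target ×ˢ Iio (0 : ℝ), ContDiffAt ℝ ∞ f z := fun z hz =>
    (hsm z hz).contDiffAt (hopen.mem_nhds hz)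
  have hLI : LI (fun y => f (y, t)) y₀ := hF.imm q t ht
  obtain ⟨L, hL⟩ := hC1 n N (fun i => dv1 (fun y => f (y, t)) y₀ i) hLI
  obtain ⟨ψ, hψs, hψ0, hψe⟩ := hC2 n N f y₀ t L (hfat _ hmem) hLI hL
  have hpde : ∀ᶠ z in 𝓝 (y₀, t), jt f z = mcv (fun y => f (y, z.2)) z.1 := by
    filter_upwards [hopen.mem_nhds hmem] with z hz
    have h1 : HasDerivAt (fun τ => F (e.symm z.1) τ) (HH (n := n) F (e.symm z.1) z.2) z.2 :=
      hF.flow _ _ hz.2
    have h4 : HasDerivAt (fun τ : ℝ => f (z.1, τ)) (jt f (z.1, z.2)) z.2 :=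
      slice_t f z.1 z.2 ((hfat z hz).differentiableAt (by simp))
    have h5 : jt f z = HH (n := n) F (e.symm z.1) z.2 := h4.unique h1
    have h6 := (hI3 n N M F hF q (e.symm z.1) z.2 hz.2 (e.map_target hz.1)).2.1
    rw [h5, h6]
    have h7 : (chartAt (EE n) q) (e.symm z.1) = z.1 := e.right_inv hz.1
    rw [h7]
    rfl
  set x₀ : EE N := f (y₀, t) with hx₀
  set u : EE n × ℝ → EE N := fun z => f (ψ z, z.2) - x₀ - L z.1 with hu
  obtain ⟨hG, hev⟩ := hC3 n N f y₀ t L ψ (hfat _ hmem) hLI hL hpde hψs hψ0 hψe u rfl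
  obtain ⟨hs1, hs2, -, -⟩ := hG1 n N x₀ L u t hG
  obtain ⟨-, hX0, -, -⟩ := hG7 n N x₀ L u t hG (jgg u (0, t)) (jggg u (0, t)) rfl rfl
  obtain ⟨-, hY0, -, -⟩ := hG8 n N x₀ L u t hG (jgg u (0, t)) (jggg u (0, t)) rfl rfl
  obtain ⟨hv, hd⟩ := hGV n N x₀ L u t hG (jgg u (0, t)) (jggg u (0, t)) rfl rfl μ
  obtain ⟨-, a2, a3, -⟩ := hev.self_of_nhds
  simp only [hψ0] at a2 a3
  -- the function `Φ`
  set Φ : EE n × ℝ → ℝ := fun z =>
    2 * nsq (fun y => f (y, z.2)) z.1 - ‖mcv (fun y => f (y, z.2)) z.1‖ ^ 2 with hΦ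
  obtain ⟨-, -, -, -, -, -, -, hm, hn, -⟩ := hSM n N f (y₀, t) (hfat _ hmem) hLI
  have hΦs : ContDiffAt ℝ ∞ Φ (y₀, t) :=
    (contDiffAt_const.mul hn).sub (hm.norm_sq ℝ)
  have hΦd : HasDerivAt (fun s : ℝ => Φ (y₀, s)) (jt Φ (y₀, t)) t :=
    slice_t Φ y₀ t (hΦs.differentiableAt (by simp))
  have hMT2 := (hMT n N f y₀ t L ψ (hfat _ hmem) hLI hL hpde hψs hψ0 hψe).2 Φ
    (hΦs.of_le (by exact_mod_cast le_top))
  have hgerm : (fun z => Φ (ψ z, z.2))
      =ᶠ[𝓝 ((0 : EE n), t)] (fun z => 2 * Xf x₀ L u z - Yf x₀ L u z) := by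
    filter_upwards [hev] with z hz
    obtain ⟨-, b2, b3, -⟩ := hz
    show 2 * nsq (fun y => f (y, z.2)) (ψ z) - ‖mcv (fun y => f (y, z.2)) (ψ z)‖ ^ 2
      = 2 * nsq (grf x₀ L u z.2) z.1 - ‖mcv (grf x₀ L u z.2) z.1‖ ^ 2
    rw [b2, b3]
  have hjt : jt (fun z => Φ (ψ z, z.2)) (0, t)
      = jt (fun z => 2 * Xf x₀ L u z - Yf x₀ L u z) (0, t) := by
    unfold jt
    rw [hgerm.fderiv_eq]
  -- the invariance
  have hf1 : ContDiffAt ℝ ∞ (loc (n := n) F q t) (ψ (0, t)) := by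
    rw [hψ0]
    have h1 : ContDiffAt ℝ ∞ (fun y : EE n => ((y, t) : EE n × ℝ)) y₀ :=
      contDiffAt_id.prodMk contDiffAt_const
    exact ContDiffAt.comp (f := fun y : EE n => ((y, t) : EE n × ℝ)) (g := f) y₀
      (hfat _ hmem) h1
  have hφ1 : ContDiffAt ℝ ∞ (fun x : EE n => ψ (x, t)) 0 := by
    have h1 : ContDiffAt ℝ ∞ (fun y : EE n => ((y, t) : EE n × ℝ)) 0 :=
      contDiffAt_id.prodMk contDiffAt_const
    exact ContDiffAt.comp (f := fun y : EE n => ((y, t) : EE n × ℝ)) (g := ψ) 0 hψs h1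
  have heq : grf x₀ L u t =ᶠ[𝓝 (0 : EE n)]
      (fun y => loc (n := n) F q t ((fun x : EE n => ψ (x, t)) y)) := by
    refine Eventually.of_forall fun x => ?_
    show x₀ + L x + (f (ψ (x, t), t) - x₀ - L x) = f (ψ (x, t), t)
    abel
  obtain ⟨i1, i2⟩ := hIB n N (loc (n := n) F q t) (grf x₀ L u t) (fun x : EE n => ψ (x, t)) 0
    hf1 hφ1 heq (LI_grf hG) μ
  simp only [hψ0] at i1 i2
  have hMA4 := (hMA n N M F hF μ t ht).2.2.2 q
  have hVF : VF n μ F t q = ∑ k, vk μ (jgg u (0, t)) (jggg u (0, t)) k • L (ee k) := by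
    rw [← hv, i1]
    rfl
  refine ⟨jgg u (0, t), jggg u (0, t), hs1, hs2, ?_, ?_, ?_, ?_⟩
  · rw [← hX0]
    exact a3.symm
  · rw [← hY0]
    show ‖mcv (fun y => f (y, t)) y₀‖ ^ 2 = ‖mcv (grf x₀ L u t) 0‖ ^ 2
    rw [a2]
  · rw [hVF]
    exact norm_comb L _
  · have hval : jt Φ (y₀, t) = dvg (n := n) F (VF n μ F t) q t
        + 2 * (1 + μ) * hX (jgg u (0, t)) (jggg u (0, t))
        - hY (jgg u (0, t)) (jggg u (0, t)) + 4 * μ * eq2 (jggg u (0, t))
        - 4 * μ * AAH (jgg u (0, t)) := by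
      rw [← hMT2, hjt, hd, hMA4, i2]
    rw [← hval]
    exact hΦd

end Helper15.PI2
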